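import Pool.Agent.H73.MR.CocGeo

/-!
Abundance for the finite images of varieties with a group of pseudo-automorphisms which acts
cocompactly on the projectivisation of the interior of an invariant cone of divisor classes.
-/

set_option autoImplicit false

open FF Pool.Agent.W602.GT Pool.Agent.Y172 Pool.Agent.R887 Pool.Agent.N110 Pool.Agent.N110.CC

/-- Let `X'` be a normal projective variety of dimension `n ≥ 1`, with generic point `y'`. Let the
vectors `c' P` be the classes of the prime divisors in `N¹(X') = ℤ ^ ρ`, `ρ ≥ 2` (if `X'` is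
`ℚ`-factorial then `ρ` is the Picard number of `X'`). Let `D` be a closed convex cone in
`N¹(X') ⊗ ℝ = ℝ ^ ρ` with nonempty interior, which is contained in the cone of pseudo-effective
divisors (for instance this cone itself, the closed movable cone, or the nef cone), and let `𝒮` be a
group of pseudo-automorphisms of `X'` which preserves `D`. Suppose that `𝒮` acts cocompactly on the
projectivisation of the interior of `D`: there is a compact subset `B` of the interior of `D` such
that for every `x` in the interior of `D` some positive multiple of the pull back of `x` by some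
element of `𝒮` is in `B`.

(1) Every rational class in the closed effective cone is zero or in the interior of `D`; in
particular effective divisors which are not zero are big (and movable, if `D` is the movable cone,
and ample, if `D` is the nef cone).

Now let `X' → X` be a finite morphism onto a normal projective variety `X`, for instance `X = X'` or
the quotient by a finite group, given by the homomorphism `π` of the function fields (more generally,
a rational map which is a finite morphism in codimension one). The morphism has nothing to do with the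
pseudo-automorphisms. Let `Δ` be a `ℚ`-divisor on `X`, for instance `Δ = 0`.

(2) If `Δ` is at most the branch divisor (the coefficient of `P` is at most `1 - 1 / e` for all
ramification indices `e` over `P`), then `K_X + Δ` is numerically trivial, and torsion if the
irregularity of `X` is zero, or `- (K_X + Δ)` is big and `K_X + Δ` is not pseudo-effective.

(3) If `K_X + Δ` is pseudo-effective, for instance nef, then `K_X + Δ` is numerically trivial, and
torsion if the irregularity of `X` is zero, or `K_X + Δ` is big and the coefficient of `Δ` at some `P`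
is greater than `1 - 1 / e` for some ramification index `e` over `P`. The second case is not possible
if `Δ = 0`. -/
theorem Pool.Agent.Results.MP_5ff3c6_ag.CocompactAction.result
    {K K' : Type} [Field K] [Algebra ℂ K] [Field K'] [Algebra ℂ K'] {N N' n ρ : ℕ}
    {y : Fin (N + 1) → K} {y' : Fin (N' + 1) → K'} (hy : NormalModel y) (hy' : NormalModel y')
    (hn : Algebra.trdeg ℂ K = n) (hn' : Algebra.trdeg ℂ K' = n) (hn0 : 0 < n) (hρ : 2 ≤ ρ)
    {c' : Place ℂ K' → Fin ρ → ℤ} (hc' : PicardBasis y' c')
    {𝒮 : Subgroup (K' ≃ₐ[ℂ] K')} (h𝒮 : ∀ ψ ∈ 𝒮, PseudoAut ψ y')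
    {D B : Set (Fin ρ → ℝ)} (hDc : IsClosed D) (hDadd : ∀ x ∈ D, ∀ z ∈ D, x + z ∈ D)
    (hDsmul : ∀ t : ℝ, 0 ≤ t → ∀ x ∈ D, t • x ∈ D) (hDint : (interior D).Nonempty)
    (hDeff : D ⊆ closure (effCone y' c'))
    (hDinv : ∀ ψ ∈ 𝒮, ∀ T : (Fin ρ → ℝ) ≃ₗ[ℝ] (Fin ρ → ℝ), IsPullBack y' c' ψ T →
      ∀ x ∈ D, T x ∈ D)
    (hB : IsCompact B) (hBD : B ⊆ interior D)
    (hcoc : ∀ x ∈ interior D, ∃ ψ ∈ 𝒮, ∃ T : (Fin ρ → ℝ) ≃ₗ[ℝ] (Fin ρ → ℝ),
      IsPullBack y' c' ψ T ∧ ∃ s : ℝ, 0 < s ∧ s • T x ∈ B)
    {π : K →ₐ[ℂ] K'} (hπ : FiniteMap π y y') :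
    (∀ q : Fin ρ → ℚ, (fun i => (q i : ℝ)) ∈ closure (effCone y' c') → q ≠ 0 →
      (fun i => (q i : ℝ)) ∈ interior D) ∧
    ∀ Δ : Place ℂ K → ℚ, {P | IsPrimeDivisor y P ∧ Δ P ≠ 0}.Finite →
      ((∀ Q P e, IsPrimeDivisor y' Q → LiesOver π Q P e → 1 ≤ (e : ℚ) * (1 - Δ P)) →
        (LogPsef y n Δ ∧ LogAntiPsef y n Δ ∧ (IrregularityZero y → LogTorsion y n Δ)) ∨
          (LogAntiBig y n Δ ∧ ¬ LogPsef y n Δ)) ∧
      (LogPsef y n Δ →
        (LogAntiPsef y n Δ ∧ (IrregularityZero y → LogTorsion y n Δ)) ∨
          (LogBig y n Δ ∧ ∃ Q P e, IsPrimeDivisor y' Q ∧ LiesOver π Q P e ∧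
            (e : ℚ) * (1 - Δ P) < 1)) :=
  Pool.Agent.H73.MR.CocAct.main hy hy' hn hn' hn0 hρ hc'
    ⟨h𝒮, hDc, hDadd, hDsmul, hDeff, hDint, hDinv, hB, hBD, hcoc⟩ hπ
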