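import Pool.Agent.H59C.Geo2

/-!
Abundance for the pairs which are dominated by a variety `X'` whose pseudo-automorphisms fix no
pseudo-effective class in `N¹(X')`.
-/

set_option autoImplicit false

open FF Pool.Agent.W602.GT Pool.Agent.Y172 Pool.Agent.R887 Pool.Agent.N110 Pool.Agent.N110.CC
  Pool.Agent.H59C

/-- Let `X'` be a normal projective variety of dimension `n ≥ 1`, with generic point `y'`, and let the
vectors `c' P` be the classes of the prime divisors in the group `N¹(X') = ℤ ^ ρ` of the divisors
modulo numerical equivalence (`ρ` is the Picard number, if `X'` is `ℚ`-factorial). Let `Δ'` be a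
`ℚ`-divisor on `X'` (`Δ' = 0`, for instance), and let `𝒯` be a set of pull backs on `N¹(X') ⊗ ℝ` by
pseudo-automorphisms (birational self-maps which are isomorphisms in codimension one) which fix the
class of `Δ'`. Suppose that one of the following holds.

(a) No pseudo-effective class in `N¹(X') ⊗ ℚ` is fixed by `𝒯`, except zero (`NoInvariantClass`).

(b) `𝒯` contains a free abelian group of rank `ρ - 1 ≥ 1` (`FreeOfMaximalRank`).

(c) `𝒯` is a group, `ρ ≥ 2`, and `𝒯` acts cocompactly on the projectivisation of the interior of some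
closed convex cone of pseudo-effective classes, for instance of the closed effective cone, of the
closed movable cone or of the nef cone (`CocompactOnCone`).

Let `X` be a normal projective variety which is dominated by `X'`: there is a generically finite
rational map `f : X' ⇢ X`, given by the homomorphism `π` of the function fields. It has nothing to do
with `𝒯`. Let `Δ ≥ 0` be a `ℚ`-divisor on `X` such that `f^* (K_X + Δ)` is at most `K_X' + Δ'` over
the prime divisors of `X'`. For example, `Δ = 0`, `X` has canonical (or terminal) singularities and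
`Δ' ≥ 0`, with any `f`; or `Δ' = 0`, `f` is a finite morphism (such as the quotient map of a finite
group) and `Δ` is at most the branch divisor.

Then the numerical dimension of `K_X + Δ` is at most zero. If `f` is a finite morphism (in codimension
one) and `K_X + Δ` is pseudo-effective then `K_X + Δ` is numerically trivial. If the irregularity of `X`
is zero and `K_X + Δ` is pseudo-effective then the Kodaira dimension and the numerical dimension of
`K_X + Δ` are zero, and if `K_X + Δ` is nef then `m (K_X + Δ)` is trivial for some `m ≥ 1`. So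
abundance holds: if `X` is a minimal variety with irregularity zero, dominated by `X'`, then
`m K_X ~ 0` for some `m ≥ 1`. -/
theorem Pool.Agent.Results.MP_5ff3c6_ag.DominatedPairs.result
    {K K' : Type} [Field K] [Algebra ℂ K] [Field K'] [Algebra ℂ K'] {N N' n ρ : ℕ}
    {y : Fin (N + 1) → K} {y' : Fin (N' + 1) → K'} (hy : NormalModel y) (hy' : NormalModel y')
    (hn : Algebra.trdeg ℂ K = n) (hn' : Algebra.trdeg ℂ K' = n) (hn0 : 0 < n)
    {c' : Place ℂ K' → Fin ρ → ℤ} (hc' : PicardBasis y' c') {Δ' : Place ℂ K' → ℚ}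
    (hΔ' : {Q | IsPrimeDivisor y' Q ∧ Δ' Q ≠ 0}.Finite)
    {𝒯 : Set ((Fin ρ → ℝ) ≃ₗ[ℝ] (Fin ρ → ℝ))}
    (h𝒯 : ∀ T ∈ 𝒯, ∃ ψ, PseudoAut ψ y' ∧ IsPullBack y' c' ψ T)
    (h𝒯Δ : ∀ T ∈ 𝒯, T (realClass y' c' Δ') = realClass y' c' Δ')
    (hlarge : NoInvariantClass y' c' 𝒯 ∨ FreeOfMaximalRank 𝒯 ∨ CocompactOnCone y' c' 𝒯)
    {π : K →ₐ[ℂ] K'} {Δ : Place ℂ K → ℚ} (hΔ : Effective y Δ)
    (hπ : PullBackAtMost π y n Δ y' Δ' ∨
      (Δ = 0 ∧ Canonical y n ∧ ∀ Q, IsPrimeDivisor y' Q → 0 ≤ Δ' Q)) :
    NumDimLt y n Δ 1 ∧
      (FiniteMap π y y' → LogPsef y n Δ → LogAntiPsef y n Δ) ∧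
      (IrregularityZero y →
        (LogPsef y n Δ → kodairaDim y n Δ = ((0 : ℕ) : WithBot ℕ) ∧
          ∀ A, Effective y A → Integral y A → numericalDim y n Δ A = ((0 : ℕ) : EReal)) ∧
        (LogNef y n Δ → LogTorsion y n Δ)) := by
  have hπ' : PullBackAtMost π y n Δ y' Δ' := by
    rcases hπ with h | ⟨rfl, hcan, hpos⟩
    · exact h
    · exact pullBackAtMost_canonical hy hy' hn hn' hcan hpos
  have hfix : NoInvariantClass y' c' 𝒯 := by
    rcases hlarge with h | h | h
    · exact h
    · exact noInv_free hy' hc' h𝒯 h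
    · exact noInv_coc hy' hc' h𝒯 h
  exact pairs hy hy' hn hn' hn0 hc' hΔ' h𝒯 h𝒯Δ hfix hΔ hπ'
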