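import Pool.Agent.Helper65.Desc.Conn

/-!
# Descent of abundance along maps of small degree

Let `V` and `W` be complex projective varieties of dimension `n` and `V ⇢ W` a dominant rational map
of degree `r`. It is arbitrary: not a quotient by a group, and its ramification and the divisors which
it contracts are arbitrary. In general abundance for `V` says nothing about `W`: every projective
variety is the image of a variety of general type. Here the canonical class of `V` is compared with
the degree of the map. Let `V ⇢ B` be a dominant rational map to a variety `B ⊂ ℙ^N` of dimension `d`,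
given by rational functions `1, t_1, ..., t_N` on `V`, and `H` the pullback of the hyperplane class to
a model of `V` on which the map is a morphism. For instance, `B` is the base of the Iitaka fibration
of `V`, with fibres of Kodaira dimension zero; or `d = n`.

(1) Let `V` be birational to its image in `W × B`, and let `m K_V - M H` be effective for some `m ≥ 1`
on all models of `V`: there is an `m`-canonical form `ω ≠ 0` such that all products of `ω` with the
monomials of degree at most `M` in the `t_j` are regular. (If `V` is smooth and `V → B` a morphism it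
suffices that `m K_V - M H` is effective on `V`.)

* If `M ≥ 2 m (r - 1)` then `κ(W) ≥ 0`; if `m = 1` and `M ≥ r - 1` then even `p_g(W) ≠ 0`.
* If `M > 2 m (r - 1)` then `κ(W) ≥ d`.
* If `M > 2 m (r - 1)` and `κ(V) = d` then `κ(W) = κ(V)`, the Iitaka fibration of `W` comes from
  `V ⇢ B`, and abundance for `V`, `κ(V) = ν(V)`, implies abundance for `W`: `κ(W) = ν(W) = d`.

So a map `V ⇢ W` which lowers the Kodaira dimension, or for which abundance fails for `W` but not for
`V`, has degree at least `M / (2 m) + 1`, if `V` is birational to its image in `W × B`. (2) Let the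
fibres of `V ⇢ B` be connected (`ℂ(B)` is algebraically closed in `ℂ(V)`), `K_V - M H` effective,
`κ(V) = d`, and `2 r' ≤ M + 1`, where `r' ≤ r` is the degree over `W` of the image of `V` in `W × B`;
it is not assumed that `V` is birational to this image. If `p_g(W) ≠ 0` then `κ(W) = κ(V)`, the
Iitaka fibration of `W` comes from `V ⇢ B`, and abundance for `V` implies abundance for `W`.

For a minimal variety `X` (terminal singularities, `K_X` nef) birational to `W` the equality
`κ(X) = ν(X)` implies that a multiple of `K_X` is base point free (Kawamata): the question has a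
positive answer for these `X`. For example, let `V = A × B` where `A` is an abelian variety and
`B ⊂ ℙ^(d+1)` a smooth hypersurface of degree `δ`, or let `V` be another variety with `κ(V) = ν(V)`
such that the forms of such a `B` (or of a finite cover of it) pull back to pluricanonical forms of
`V`. Then `M = m (δ - d - 2)`, and (1) applies to all `W` and all maps `V ⇢ W` of degree
`r ≤ (δ - d - 1) / 2` such that `V` is birational to its image in `W × B`.

Remark (not part of the theorem): the bound `M > 2 m (r - 1)` is optimal for all `m` and `r`. Let `f`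
be a function on an elliptic curve `W` with simple zeros and poles, and `V` the curve `t ^ r = f`. Then
`m K_V` is linearly equivalent to `2 m (r - 1) H`, but `κ(W) = 0`; for `W = ℙ^1` one gets examples
with `κ(W) = -∞` and `M / m` arbitrarily close to `2 (r - 1)`.

Proof. (1) Let `P` be a prime divisor of a model of `W`, `Q` one over it, of ramification index `e`,
and `a ≥ 0` the pole order of the `t_j` along `Q`. In a local frame at `P` the value of `ω` has order
at least `m (1 - e) + M a` along `Q`. Let `h` be a generic linear combination of the `t_j`; it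
generates `ℂ(V)` over `ℂ(W)`. Choose `g` with order `(1 - e) + 2 (r - 1) a` at all `Q` over `P`. The
traces of the `g h ^ i`, `i ≤ 2 (r - 1)`, are regular at `P`, so `Norm(g) disc(h)` is regular at `P`,
being the determinant of the matrix of the traces of the `g h ^ (i + j)`, `i, j < r`. So
`Norm(u ω) disc(h) ^ m` is regular in the frame for `u = 1` if `M ≥ 2 m (r - 1)`, and for
`u = c - t_j` with constants `c` if `M > 2 m (r - 1)`: this defines `m r`-canonical forms on `W`. Their
ratios are the norms of the `c - t_j`; the `t_j` are algebraic over the field which these norms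
generate, since the norms for all `c` give the characteristic polynomial of `t_j`. So `d` of the
ratios are algebraically independent. If `κ(V) = d` then the ratios of the pluricanonical forms of
`W` are algebraic over `ℂ(B)`, since otherwise these forms and the `ω ^ k`, `t_j ω ^ k` show
`κ(V) > d`. (2) If `η` is a canonical form on `W` then its pullback is `g ω` with a function `g` on
`V` which is algebraic over `ℂ(B)` by the same argument, so it comes from `B`. So the trace of `ω` to
the image of `V` in `W × B` is not zero, and the traces to `W` of the products of `ω` with the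
polynomials of degree `M` in the `t_j` give `κ(W) ≥ d` (`core_img` in `Pool/Agent/R882/TCore.lean`).
-/

set_option autoImplicit false
set_option linter.overlappingInstances false

open FF Module Pool.Agent Pool.Agent.W602.GT

namespace Pool.Agent.Results.MP_5ff3c6_ag.SmallDegreeDescent

section

variable {K : Type} [Field K] [Algebra ℂ K]

/-- The `m`-canonical form `ω` is a section of `m K_V - M H` on all models of `V`, where `H` is the
pullback of the hyperplane class under the map given by `1, t 1, ..., t N`: its products with the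
monomials of degree at most `M` in the `t j` are regular along all prime divisors. -/
def IsTwisted {N : ℕ} (n m M : ℕ) (t : Fin N → K) (ω : (Fin n → Derivation ℂ K K) → K) : Prop :=
  IsPluri m ω ∧ ∀ a : Fin N → ℕ, ∑ j, a j ≤ M → ∀ P : Place ℂ K, Divisorial n P →
    RegAt P (fun D => (∏ j, t j ^ a j) * ω D)

/-- The function field of the image of the map given by `1, t 1, ..., t N` is algebraically closed
in `K`: the general fibres of the map to its image are connected. -/
def ConnectedFibres {N : ℕ} (t : Fin N → K) : Prop :=
  ∀ x : K, IsAlgebraic (IntermediateField.adjoin ℂ (Set.range t)) x →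
    x ∈ IntermediateField.adjoin ℂ (Set.range t)

end

section

variable (K : Type) [Field K] [Algebra ℂ K]

/-- There is a nonzero `R`-canonical form which is regular along all prime divisors. -/
def HasForm (n R : ℕ) : Prop :=
  ∃ η : (Fin n → Derivation ℂ K K) → K, IsPluri R η ∧
    (∀ P : Place ℂ K, Divisorial n P → RegAt P η) ∧ ∃ D, η D ≠ 0

/-- `κ ≥ d`: for some `R ≥ 1` there are nonzero `R`-canonical forms `η 0, ..., η d`, regular along
all prime divisors, with algebraically independent ratios `η l / η 0`, `l = 1, ..., d`. -/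
def KodairaDimGE (n d : ℕ) : Prop :=
  ∃ R : ℕ, 1 ≤ R ∧ ∃ η : Fin (d + 1) → (Fin n → Derivation ℂ K K) → K,
    (∀ l, IsPluri R (η l) ∧ ∀ P : Place ℂ K, Divisorial n P → RegAt P (η l)) ∧
    ∃ D, (∀ l, η l D ≠ 0) ∧ AlgebraicIndependent ℂ fun l : Fin d => η l.succ D / η 0 D

/-- `κ ≤ d`: it is not true that `κ ≥ d + 1`. -/
def KodairaDimLE (n d : ℕ) : Prop := ¬ KodairaDimGE K n (d + 1)

/-- `κ = d`. -/
def KodairaDimEq (n d : ℕ) : Prop := KodairaDimGE K n d ∧ KodairaDimLE K n d

/-- `ν ≤ d`: for every finite set `S` of functions (every divisor `A`) there is a constant `C` such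
that for all `m ≥ 1` there are at most `C m ^ d` linearly independent `m`-canonical forms `ω l` with
poles bounded by `S` (sections of `m K + A`): along each prime divisor `P` the values of `ω l` on
regular vector fields are zero or of order at least `ord_P s` for some `s ≠ 0` in `S`. -/
def NumericalDimLE (n d : ℕ) : Prop :=
  ∀ S : Finset K, ∃ C : ℕ, ∀ m N : ℕ, 1 ≤ m →
    ∀ ω : Fin N → (Fin n → Derivation ℂ K K) → K, LinearIndependent ℂ ω →
      (∀ l, IsPluri m (ω l)) →
      (∀ l, ∀ P : Place ℂ K, Divisorial n P → ∀ D : Fin n → Derivation ℂ K K,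
        (∀ i, DerReg P (D i)) → ω l D = 0 ∨ ∃ s ∈ S, s ≠ 0 ∧ P.ord s ≤ P.ord (ω l D)) →
      N ≤ C * m ^ d

/-- Abundance: `κ = ν = d`, expressed by `κ ≥ d` and `ν ≤ d` (always `κ ≤ ν`). -/
def Abundance (n d : ℕ) : Prop := KodairaDimGE K n d ∧ NumericalDimLE K n d

end

/-- The Iitaka fibration of `W`, pulled back to `V`, factors through the fibration `V ⇢ B` given by
`1, t 1, ..., t N` up to finite maps: all ratios of pluricanonical forms on `W` (regular along all
prime divisors) are algebraic over `ℂ(t)`. If `κ(W) = dim B`, it is the fibration `V ⇢ B` up to finite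
maps. -/
def IitakaFibrationFromBase {K : Type} [Field K] [Algebra ℂ K] (L : Type) [Field L] [Algebra ℂ L]
    [Algebra L K] {N : ℕ} (n : ℕ) (t : Fin N → K) : Prop :=
  ∀ R : ℕ, 1 ≤ R → ∀ η η' : (Fin n → Derivation ℂ L L) → L, IsPluri R η → IsPluri R η' →
    (∀ P : Place ℂ L, Divisorial n P → RegAt P η ∧ RegAt P η') → ∀ D, η' D ≠ 0 →
    IsAlgebraic (IntermediateField.adjoin ℂ (Set.range t)) (algebraMap L K (η D / η' D))

theorem kod_iff {K : Type} [Field K] [Algebra ℂ K] {n d : ℕ} :
    KodairaDimGE K n d ↔ Pool.Agent.W619.Y.KodTr ℂ K n d := by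
  constructor
  · rintro ⟨R, hR, η, hη, D, hD, hind⟩
    exact ⟨R, hR, η, fun l => Pool.Agent.Helper65.Desc.isSec_pl (hη l).1 (hη l).2, D, hD, hind⟩
  · rintro ⟨R, hR, η, hη, D, hD, hind⟩
    refine ⟨R, hR, η, fun l => ⟨(hη l).1, fun P hP G hG => ?_⟩, D, hD, hind⟩
    rcases (hη l).2.1 P hP (fun h => h) G (fun i f hf => hG i f hf) with h | ⟨s, hs, -, h⟩
    · exact Or.inl h
    · right
      rw [Nat.cast_zero, zero_mul] at h
      exact h

theorem num_iff {K : Type} [Field K] [Algebra ℂ K] {n d : ℕ} :
    NumericalDimLE K n d ↔ Pool.Agent.W619.TW.NumLe ℂ K n (fun _ => False) d := by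
  constructor
  · intro h S
    obtain ⟨C, hC⟩ := h S
    refine ⟨C, fun m N hm hi => ?_⟩
    obtain ⟨ω, hω, hs⟩ := hi
    refine hC m N hm ω hω (fun l => (hs l).1) fun l P hP D hD => ?_
    rcases (hs l).2.1 P hP (fun h => h) D (fun i f hf => hD i f hf) with h | ⟨s, hsS, h0, h⟩
    · exact Or.inl h
    · refine Or.inr ⟨s, hsS, h0, ?_⟩
      rwa [Nat.cast_one, one_mul] at h
  · intro h S
    obtain ⟨C, hC⟩ := h S
    refine ⟨C, fun m N hm ω hω h1 h2 => hC m N hm ⟨ω, hω, fun l => ⟨h1 l, fun P hP _ D hD => ?_,
      fun _ _ hB => hB.elim⟩⟩⟩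
    rcases h2 l P hP D (fun i f hf => hD i f hf) with h | ⟨s, hsS, h0, h⟩
    · exact Or.inl h
    · refine Or.inr ⟨s, hsS, h0, ?_⟩
      rwa [Nat.cast_one, one_mul]

/-- **Descent of abundance along maps of small degree.** Let `V` be a projective variety of dimension
`n` with function field `K`, `V ⇢ B` the map given by the functions `1, t 1, ..., t N` with image `B`
of dimension `d`, `H` the pullback of the hyperplane class, and `ω ≠ 0` a section of `m K_V - M H` on
all models of `V`. Let `V ⇢ W` be a dominant rational map of finite degree `[K : L]`, where `L` is the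
function field of `W`.

(1) Let `K = L(t)`: `V` is birational to its image in `W × B`. Then `p_g(W) ≠ 0` if `m = 1` and
`[K : L] ≤ M + 1`; `κ(W) ≥ 0` if `M ≥ 2 m ([K : L] - 1)`; and `κ(W) ≥ d` if `M > 2 m ([K : L] - 1)`.
If `M > 2 m ([K : L] - 1)` and `κ(V) ≤ d`, then `κ(W) = κ(V) = d` and the Iitaka fibration of `W`
comes from `V ⇢ B`; if moreover `ν(V) ≤ d` then `κ(W) = ν(W) = d`.

(2) Let `m = 1`, let the fibres of `V ⇢ B` be connected, `κ(V) ≤ d`, and `2 [L(t) : L] ≤ M + 1`. If
`p_g(W) ≠ 0` then `κ(W) = κ(V) = d` and the Iitaka fibration of `W` comes from `V ⇢ B`; if moreover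
`ν(V) ≤ d` then `κ(W) = ν(W) = d`. -/
theorem result {n N m M d : ℕ} (hm : 1 ≤ m) {K : Type} [Field K] [Algebra ℂ K]
    [Algebra.EssFiniteType ℂ K] (hK : Algebra.trdeg ℂ K = (n : ℕ)) {t : Fin N → K}
    (hd : Algebra.trdeg ℂ (IntermediateField.adjoin ℂ (Set.range t)) = (d : ℕ))
    {ω : (Fin n → Derivation ℂ K K) → K} (hω : IsTwisted n m M t ω) (hne : ∃ D, ω D ≠ 0)
    (L : Type) [Field L] [Algebra ℂ L] [Algebra L K] [IsScalarTower ℂ L K]
    [FiniteDimensional L K] :
    (IntermediateField.adjoin L (Set.range t) = ⊤ →
      (m = 1 → finrank L K ≤ M + 1 → HasForm L n 1) ∧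
      (2 * m * (finrank L K - 1) ≤ M → ∃ R, 1 ≤ R ∧ HasForm L n R) ∧
      (2 * m * (finrank L K - 1) < M → KodairaDimGE L n d ∧
        (KodairaDimLE K n d → KodairaDimEq K n d ∧ KodairaDimEq L n d ∧
          IitakaFibrationFromBase L n t ∧ (NumericalDimLE K n d → Abundance L n d)))) ∧
    (m = 1 → ConnectedFibres t → KodairaDimLE K n d →
      2 * finrank L (IntermediateField.adjoin L (Set.range t)) ≤ M + 1 → HasForm L n 1 →
      KodairaDimEq K n d ∧ KodairaDimEq L n d ∧ IitakaFibrationFromBase L n t ∧
        (NumericalDimLE K n d → Abundance L n d)) := by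
  have hessL : Algebra.EssFiniteType ℂ L := Pool.Agent.TH466.QG.ess_below (K := K)
  have hL : Algebra.trdeg ℂ L = n := Pool.Agent.Y184.NT.trdeg_below (K := K) hK
  have hup : ∀ h, KodairaDimGE L n h → KodairaDimGE K n h := fun h hk =>
    kod_iff.2 (Pool.Agent.Helper65.Desc.kod_up hL (kod_iff.1 hk))
  have hab : 1 ≤ M → KodairaDimLE K n d → Pool.Agent.W619.Y.KodTr ℂ L n d →
      KodairaDimEq K n d ∧ KodairaDimEq L n d ∧ IitakaFibrationFromBase L n t ∧
        (NumericalDimLE K n d → Abundance L n d) := by
    intro hM hkd hkod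
    have hkd' : ¬ Pool.Agent.W619.Y.KodTr ℂ K n (d + 1) := fun h => hkd (kod_iff.2 h)
    exact ⟨⟨hup d (kod_iff.2 hkod), hkd⟩, ⟨kod_iff.2 hkod, fun h => hkd (hup (d + 1) h)⟩,
      fun R hR η η' hη hη' hr D hD => Pool.Agent.Helper65.Desc.descends hL hm hd hM hω hne hkd' hR
        hη hη' (fun P hP => (hr P hP).1) (fun P hP => (hr P hP).2) hD, fun hnum =>
      ⟨kod_iff.2 hkod, num_iff.2 (Pool.Agent.R882.LT.numLe_down hK (num_iff.1 hnum))⟩⟩
  refine ⟨fun ht => ?_, fun h1 hcl hkd hdeg hform => ?_⟩
  · obtain ⟨h1, h2⟩ := Pool.Agent.Helper65.Desc.partA (d := d) hm hL ht hω hne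
    have hassoc : 2 * m * (finrank L K - 1) = m * (2 * (finrank L K - 1)) := by ring
    refine ⟨fun hm1 hdeg => ?_, fun hM => h1 (hassoc ▸ hM), fun hM => ?_⟩
    · subst hm1
      obtain ⟨z, E, hz, hE⟩ := Pool.Agent.Y172.exists_crd (k := ℂ) (K := L) hL
      have htop : (IntermediateField.adjoin L (Set.range t)).restrictScalars ℂ =
          (⊤ : IntermediateField ℂ K) := by
        rw [ht]
        rfl
      have htn : Pool.Agent.R882.LT.TraceNe ω
          ((IntermediateField.adjoin L (Set.range t)).restrictScalars ℂ) := by
        rw [htop]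
        exact Pool.Agent.Helper65.Desc.traceNe_of (F := ⊤) hL (fun _ => IntermediateField.mem_top)
          hz hE hω.1 hne fun _ _ => IntermediateField.mem_top
      refine (Pool.Agent.R882.LT.core_img hK hd rfl hω htn).1 ?_
      rw [ht, IntermediateField.finrank_top']
      exact hdeg
    · have hkod := h2 (hassoc ▸ hM) hd
      exact ⟨kod_iff.2 hkod, fun hkd => hab (by omega) hkd hkod⟩
  · subst h1
    have hM : 1 ≤ M := by
      have h1 : 0 < finrank L (IntermediateField.adjoin L (Set.range t)) := finrank_pos
      omega
    obtain ⟨θ, hθ, hθr, hθ0⟩ := hform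
    exact hab hM hkd (Pool.Agent.Helper65.Desc.partB hL hd hcl hω hne hθ hθr hθ0
      (fun h => hkd (kod_iff.2 h)) hdeg)

end Pool.Agent.Results.MP_5ff3c6_ag.SmallDegreeDescent
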